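import Pool.Agent.W_c0q2_h38.Main

namespace Pool.Agent.Results.MP_c0ce05_co.BoundedDifference

/-- The difference of the (2:2) Clique Achievement Number `A(N)` and the (2:2) Clique Avoidance
Number `V(N)` is bounded by an absolute constant for all `N`. -/
theorem result : ∃ C : ℝ, ∀ N : ℕ,
    |(C0ce.achievement N : ℝ) - (C0ce.avoidance N : ℝ)| ≤ C :=
  C0cr.difference

end Pool.Agent.Results.MP_c0ce05_co.BoundedDifference
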