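import Pool.Agent.W_c0l1_h38.Win

namespace Pool.Agent.Results.MP_c0ce05_co.LowerSharp

/-- For all large `N` both the (2:2) Clique Achievement Number `A(N)` and the (2:2) Clique
Avoidance Number `V(N)` are at least `2 log₂ N - 2 log₂ log₂ N - 49`: in (2:2) play on `K_N` Maker
can build, and Forcer can force Avoider to build, a clique with that many vertices. -/
theorem result :
    ∃ N₀ : ℕ, ∀ N : ℕ, N₀ ≤ N →
      2 * Real.logb 2 N - 2 * Real.logb 2 (Real.logb 2 N) - 49 ≤ (C0ce.achievement N : ℝ) ∧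
      2 * Real.logb 2 N - 2 * Real.logb 2 (Real.logb 2 N) - 49 ≤ (C0ce.avoidance N : ℝ) :=
  C0l1.lower

end Pool.Agent.Results.MP_c0ce05_co.LowerSharp
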