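import Pool.Agent.W_c0q2_h38.Main

namespace Pool.Agent.Results.MP_c0ce05_co.UpperSharp

/-- There is an absolute constant `C` such that for all large `N` both the (2:2) Clique Achievement
Number `A(N)` and the (2:2) Clique Avoidance Number `V(N)` are at most
`2 log₂ N - 2 log₂ log₂ N + C`: in (2:2) play on `K_N` Breaker can prevent, and Avoider can avoid,
larger cliques. -/
theorem result : ∃ C : ℝ, ∃ N₀ : ℕ, ∀ N : ℕ, N₀ ≤ N →
    (C0ce.achievement N : ℝ) ≤ 2 * Real.logb 2 N - 2 * Real.logb 2 (Real.logb 2 N) + C ∧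
    (C0ce.avoidance N : ℝ) ≤ 2 * Real.logb 2 N - 2 * Real.logb 2 (Real.logb 2 N) + C :=
  C0cr.upper

end Pool.Agent.Results.MP_c0ce05_co.UpperSharp
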